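import Pool.Agent.Helper69K1.GrU.Stm
import Pool.Agent.Helper69K1.Gr.Fin

/-!
# The test without a grading
-/

set_option linter.unusedSectionVars false

namespace Pool.Agent.Helper69K1.GrU

open Module Pool.Agent.NPC Pool.Agent.NPC.H532 Pool.Agent.H420_NCF Pool.Agent.H687R2.LLL
open Pool.Agent.Helper69K1 Pool.Agent.Helper69K1.Gr

theorem testU_complete (hG : S_GU) {I : Inp} (κ : ℕ)
    (hB : com (spB I.1.length I.2) (κ + 1) ≤ spB I.1.length I.2)
    (h : ∃ c, (cq I.1.length I.2 c).det ≠ 0) : testG I = true := by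
  obtain ⟨d, hd⟩ := h
  obtain ⟨hlen, hst⟩ := loc_spec dirG 1 I
  by_contra hcon
  apply hd
  set B := spB I.1.length I.2 with hBdef
  set c := loc dirG 1 I with hc
  set D := dirL (I, c) with hD
  set w := inner (ctx (I, c)) with hw
  obtain ⟨hk1, hk2⟩ := kdir_spec I.1.length (I.1.length * I.1.length) (cmb I.1.length I.2 c) I.2
  have hxq : mq I.1.length (cmb I.1.length I.2 c) = cq I.1.length I.2 (qv c) := mq_cmb _ _ _
  rw [hxq] at hk1 hk2
  have hzn : ∀ u ∈ D, cq I.1.length I.2 (qv u) ∈ nullC B (cq I.1.length I.2 (qv c)) (I.1.length * I.1.length) := fun u hu =>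
    ⟨cq_mem_spB _ _ _, (hk1 _ hu).2⟩
  have hspan : nullC B (cq I.1.length I.2 (qv c)) (I.1.length * I.1.length) ≤
      Submodule.span ℚ (Set.range fun i : Fin D.length => cq I.1.length I.2 (qv D[i])) := by
    rintro M ⟨hM1, hM2⟩
    obtain ⟨e, rfl⟩ := mem_spB.1 hM1
    refine Submodule.span_mono ?_ (hk2 e hM2)
    rintro _ ⟨u, hu, rfl⟩
    obtain ⟨i, hi, rfl⟩ := List.getElem_of_mem hu
    exact ⟨⟨i, hi⟩, rfl⟩
  have hwlen : w.length = I.2.length := inner_length _
  have hwn : cq I.1.length I.2 (qv w) ∈ nullC B (cq I.1.length I.2 (qv c)) (I.1.length * I.1.length) :=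
    inner_mem (ctx (I, c)) _ hzn
  have hadd : ∀ (u : List ℤ) (t : ℕ), cq I.1.length I.2 (qv (addv w u t)) =
      cq I.1.length I.2 (qv w) + (t : ℚ) • cq I.1.length I.2 (qv u) := by
    intro u t
    have h3 := cq_addv (N := I.1.length) (Bs := I.2) (c := w) (by omega) u t 0
    rwa [add_zero, zero_add, cq_add, cq_smul] at h3
  have halg : spB I.1.length (ctx (I, c)).2.1 = Subalgebra.toSubmodule (Algebra.adjoin ℚ
      (nullC B (cq I.1.length I.2 (qv c)) (I.1.length * I.1.length) : Set (Matrix (Fin I.1.length) (Fin I.1.length) ℚ))) := by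
    change spB I.1.length (algF I.1.length (D.map fun u => cmb I.1.length I.2 u)) = _
    rw [spB_algF]
    congr 1
    apply le_antisymm
    · refine Algebra.adjoin_le ?_
      rintro _ ⟨Z, hZ, rfl⟩
      obtain ⟨u, hu, rfl⟩ := List.mem_map.1 hZ
      rw [mq_cmb]
      exact Algebra.subset_adjoin (hzn u hu)
    · refine Algebra.adjoin_le ?_
      intro M hM
      have h4 := hspan hM
      have h5 : Submodule.span ℚ (Set.range fun i : Fin D.length => cq I.1.length I.2 (qv D[i])) ≤
          Subalgebra.toSubmodule (Algebra.adjoin ℚ {M : Matrix (Fin I.1.length) (Fin I.1.length) ℚ |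
            ∃ Z ∈ D.map fun u => cmb I.1.length I.2 u, M = mq I.1.length Z}) := by
        refine Submodule.span_le.2 ?_
        rintro _ ⟨i, rfl⟩
        refine Algebra.subset_adjoin ⟨cmb I.1.length I.2 D[i], List.mem_map.2 ⟨_, List.getElem_mem _, rfl⟩,
          ?_⟩
        rw [mq_cmb]
      exact h5 h4
  have hpot : ∀ c', c'.length = I.2.length → pot (ctx (I, c)) c' =
      rkA (Subalgebra.toSubmodule (Algebra.adjoin ℚ
        (nullC B (cq I.1.length I.2 (qv c)) (I.1.length * I.1.length) : Set (Matrix (Fin I.1.length) (Fin I.1.length) ℚ))))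
        (cq I.1.length I.2 (qv c')) := by
    intro c' _
    rw [← halg, ← mq_cmb]
    exact rho_eq _ _ _
  refine hG (Fin I.1.length) κ B hB (cq I.1.length I.2 (qv c)) (cq_mem_spB I.1.length I.2 (qv c)) (I.1.length * I.1.length)
    ?_ D.length (fun i => cq I.1.length I.2 (qv D[i])) (fun i => hzn _ (List.getElem_mem _)) hspan
    (cq I.1.length I.2 (qv w)) hwn ?_ ?_ ?_ _ (cq_mem_spB I.1.length I.2 d)
  · rw [Module.finrank_matrix]
    simp
  · intro i t ht s
    rw [Fintype.card_fin] at ht
    have h1 := hst (s • qv (addv w D[i] t)) ⟨0, rfl, addv w D[i] t, mem_cands.2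
      ⟨D[i], List.getElem_mem _, t, by
        change t < I.1.length + 1
        omega, rfl⟩, s, by rw [zero_add]⟩
    rwa [cq_add, cq_smul, hadd] at h1
  · intro i t ht
    rw [Fintype.card_fin] at ht
    have h1 := inner_stuck (ctx (I, c)) D[i] (List.getElem_mem _) t (by
      change t < TT I.1.length
      unfold TT
      have : I.1.length ^ 2 = I.1.length * I.1.length := pow_two I.1.length
      omega)
    rw [hpot _ (by rw [length_addv]; exact hwlen), hpot _ hwlen, hadd] at h1
    exact h1
  · by_contra hdet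
    apply hcon
    rw [testG, decide_eq_true_iff, sr_eq]
    have h1 := (srk_eq_card_iff (cq I.1.length I.2 (qv c))).2 hdet
    rw [Fintype.card_fin] at h1
    exact h1.ge

/-- The test on symbolic matrices. -/
noncomputable def symU (A : SMat) : Bool :=
  (A.all fun r => decide (r.length = A.length)) && testG (inp A)

theorem poly_symU : Poly symU := by
  unfold symU
  exact Poly.and (poly_isSquare Poly.id) (poly_testG.comp (poly_inp Poly.id))

theorem symU_sound {A : SMat} (h : symU A = true) :
    IsSquare A ∧ (symMat A).det ≠ 0 := by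
  rw [symU, Bool.and_eq_true] at h
  exact ⟨(isSquare_iff A).1 h.1, cast_det (testG_sound h.2)⟩

theorem symU_complete (hG : S_GU) {A : SMat} (hs : IsSquare A) {κ : ℕ}
    (hB : com (spB A.length (coeffs A)) (κ + 1) ≤ spB A.length (coeffs A))
    (h : (symMat A).det ≠ 0) : symU A = true := by
  rw [symU, Bool.and_eq_true]
  refine ⟨(isSquare_iff A).2 hs, testU_complete hG κ ?_ (det_cast h)⟩
  rw [length_inp]
  exact hB

end Pool.Agent.Helper69K1.GrU
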