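import Pool.Agent.Helper69K1.Gr.M
import Pool.Agent.Helper69K1.Gr.GR

/-!
# The trace form quotient of a matrix algebra, and its grading
-/

set_option autoImplicit false

namespace Pool.Agent.Helper69K1.GrU

open Module Polynomial Pool.Agent.Helper69K1 Pool.Agent.Helper69K1.Gr

open PieceM in
theorem t_MU (n : Type) [Fintype n] [DecidableEq n] (A : Subalgebra ℚ (Matrix n n ℚ))
    (e : Matrix n n ℚ) (hee : e * e = e) (hc : ∀ a ∈ A, e * a = a * e) :
    ∃ (S : Type) (_ : Ring S) (_ : Algebra ℚ S) (_ : FiniteDimensional ℚ S) (τ : S →ₗ[ℚ] ℚ)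
      (q : A →ₐ[ℚ] S), Function.Surjective q ∧ TrAlg τ ∧
      ∀ a : A, τ (q a) = (e * (a : Matrix n n ℚ)).trace := by
  have := J_two A e hc
  set q : A →ₐ[ℚ] (A ⧸ J A e hc) := Ideal.Quotient.mkₐ ℚ (J A e hc) with hq
  have hqs : Function.Surjective q := Ideal.Quotient.mkₐ_surjective ℚ _
  have hq0 : ∀ a : A, q a = 0 ↔ ∀ b, phi A e (a * b) = 0 := by
    intro a
    rw [hq, Ideal.Quotient.mkₐ_eq_mk, Ideal.Quotient.eq_zero_iff_mem, mem_J]
  have hfd : FiniteDimensional ℚ (A ⧸ J A e hc) :=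
    Module.Finite.of_surjective q.toLinearMap hqs
  have hker : LinearMap.ker q.toLinearMap ≤ LinearMap.ker (phi A e) := by
    intro a ha
    rw [LinearMap.mem_ker] at ha ⊢
    have := (hq0 a).1 ha 1
    rwa [mul_one] at this
  obtain ⟨τ, hτ⟩ : ∃ τ : (A ⧸ J A e hc) →ₗ[ℚ] ℚ, ∀ a : A, τ (q a) = phi A e a := by
    refine ⟨(LinearMap.ker q.toLinearMap).liftQ (phi A e) hker ∘ₗ
      (q.toLinearMap.quotKerEquivOfSurjective hqs).symm.toLinearMap, fun a => ?_⟩
    rw [LinearMap.comp_apply, LinearEquiv.coe_coe]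
    have h1 : (q.toLinearMap.quotKerEquivOfSurjective hqs).symm (q a) =
        (LinearMap.ker q.toLinearMap).mkQ a := by
      rw [LinearEquiv.symm_apply_eq]
      rfl
    rw [h1]
    rfl
  have hnilq : ∀ a : A, IsNilpotent (e * (a : Matrix n n ℚ)) → IsNilpotent (q a) := by
    intro a ha
    obtain ⟨N, hN⟩ := ha
    have hN1 : (e * (a : Matrix n n ℚ)) ^ (N + 1) = 0 := by rw [pow_succ, hN, zero_mul]
    rw [e_pow hee (hc a a.2)] at hN1
    refine ⟨N + 1, ?_⟩
    rw [← map_pow, hq0]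
    intro b
    rw [phi_apply]
    push_cast
    rw [← mul_assoc, hN1, zero_mul, Matrix.trace_zero]
  refine ⟨A ⧸ J A e hc, inferInstance, inferInstance, hfd, τ, q, hqs, ?_, hτ⟩
  refine ⟨?_, ?_, ?_, ?_, ?_⟩
  · intro a b
    obtain ⟨a, rfl⟩ := hqs a
    obtain ⟨b, rfl⟩ := hqs b
    rw [← map_mul, ← map_mul, hτ, hτ, phi_comm A e hc]
  · intro a ha
    obtain ⟨a, rfl⟩ := hqs a
    rw [hq0]
    intro b
    have := ha (q b)
    rwa [← map_mul, hτ] at this
  · intro a ha
    obtain ⟨a, rfl⟩ := hqs a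
    obtain ⟨N, hN⟩ := ha
    have hN1 : q a ^ (N + 1) = 0 := by rw [pow_succ, hN, zero_mul]
    rw [← map_pow, hq0] at hN1
    rw [hτ, phi_apply]
    apply trace_of_nil
    have h2 : IsNilpotent ((e * (a : Matrix n n ℚ)) ^ (N + 1)) := by
      rw [e_pow hee (hc a a.2)]
      apply mat_nil_of_trace
      intro m hm
      obtain ⟨m, rfl⟩ := Nat.exists_eq_succ_of_ne_zero hm.ne'
      have hcN : e * (a : Matrix n n ℚ) ^ (N + 1) = (a : Matrix n n ℚ) ^ (N + 1) * e :=
        (Commute.pow_right (hc a a.2 : Commute e (a : Matrix n n ℚ)) _)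
      rw [Nat.succ_eq_add_one, e_pow hee hcN, pow_succ' _ m]
      have := hN1 ((a ^ (N + 1)) ^ m)
      rw [phi_apply] at this
      push_cast at this
      exact this
    obtain ⟨K, hK⟩ := h2
    exact ⟨(N + 1) * K, by rw [pow_mul]; exact hK⟩
  · intro a ha
    obtain ⟨a, rfl⟩ := hqs a
    apply hnilq
    apply mat_nil_of_trace
    intro m hm
    obtain ⟨m, rfl⟩ := Nat.exists_eq_succ_of_ne_zero hm.ne'
    rw [Nat.succ_eq_add_one, e_pow hee (hc a a.2)]
    have := ha (m + 1) (Nat.succ_pos m)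
    rw [← map_pow, hτ, phi_apply] at this
    push_cast at this
    exact this
  · intro R hR hRt
    -- the space of the matrices `e a`
    set R' : Submodule ℚ A := R.comap q.toLinearMap with hR'
    have hRq : R'.map q.toLinearMap = R :=
      Submodule.map_comap_eq_of_surjective hqs R
    set ψ : A →ₗ[ℚ] Module.End ℚ (n → ℚ) :=
      (Matrix.toLinAlgEquiv' : Matrix n n ℚ ≃ₐ[ℚ] _).toLinearMap ∘ₗ (LinearMap.mulLeft ℚ e) ∘ₗ
        A.val.toLinearMap with hψ
    have hψa : ∀ a : A, ψ a = Matrix.toLinAlgEquiv' (e * (a : Matrix n n ℚ)) := fun a => rfl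
    have hψm : ∀ a b : A, ψ (a * b) = ψ a * ψ b := by
      intro a b
      rw [hψa, hψa, hψa, ← map_mul]
      congr 1
      push_cast
      rw [mul_assoc e (a : Matrix n n ℚ), ← mul_assoc (a : Matrix n n ℚ) e, ← hc a a.2, mul_assoc,
        ← mul_assoc e e, hee]
    have hψ0 : ∀ a : A, ψ a = 0 → q a = 0 := by
      intro a ha
      rw [hψa] at ha
      have h1 : e * (a : Matrix n n ℚ) = 0 := by
        have := (map_eq_zero_iff (Matrix.toLinAlgEquiv' : Matrix n n ℚ ≃ₐ[ℚ] _)
          (Matrix.toLinAlgEquiv' : Matrix n n ℚ ≃ₐ[ℚ] _).injective).1 ha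
        exact this
      rw [hq0]
      intro b
      rw [phi_apply]
      push_cast
      rw [← mul_assoc, h1, zero_mul, Matrix.trace_zero]
    have hL : ∀ x ∈ R'.map ψ, ∀ y ∈ R'.map ψ, x * y - y * x ∈ R'.map ψ := by
      rintro _ ⟨a, ha, rfl⟩ _ ⟨b, hb, rfl⟩
      refine ⟨a * b - b * a, ?_, ?_⟩
      · change q (a * b - b * a) ∈ R
        rw [map_sub, map_mul, map_mul]
        exact hR _ ha _ hb
      · rw [map_sub, hψm, hψm]
    have htr : ∀ x ∈ R'.map ψ, ∀ y ∈ R'.map ψ, LinearMap.trace ℚ (n → ℚ) (x * y) = 0 := by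
      rintro _ ⟨a, ha, rfl⟩ _ ⟨b, hb, rfl⟩
      rw [← hψm, hψa]
      have h1 := hRt _ ha _ hb
      change τ (q a * q b) = 0 at h1
      rw [← map_mul, hτ, phi_apply] at h1
      rw [← h1]
      exact Matrix.trace_toLin'_eq _
    obtain ⟨p, hp⟩ := comms_nil hL htr
    have hcm : ∀ a ∈ comms R', ψ a ∈ comms (R'.map ψ) := by
      intro a ha
      refine Submodule.span_induction (p := fun a _ => ψ a ∈ comms (R'.map ψ)) ?_ ?_ ?_ ?_ ha
      · rintro _ ⟨a, ha, b, hb, rfl⟩
        rw [map_sub, hψm, hψm]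
        exact comms_mem ⟨a, ha, rfl⟩ ⟨b, hb, rfl⟩
      · rw [map_zero]; exact Submodule.zero_mem _
      · intro a b _ _ ha hb
        rw [map_add]; exact Submodule.add_mem _ ha hb
      · intro c a _ ha
        rw [map_smul]; exact Submodule.smul_mem _ _ ha
    have hpw : ∀ j : ℕ, ∀ a ∈ comms R' ^ (j + 1), ψ a ∈ comms (R'.map ψ) ^ (j + 1) := by
      intro j
      induction j with
      | zero =>
          intro a ha
          rw [zero_add, pow_one] at ha ⊢
          exact hcm a ha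
      | succ j ih =>
          intro a ha
          rw [pow_succ] at ha ⊢
          refine Submodule.mul_induction_on ha ?_ ?_
          · intro x hx y hy
            rw [hψm]
            exact Submodule.mul_mem_mul (ih x hx) (hcm y hy)
          · intro x y hx hy
            rw [map_add]
            exact Submodule.add_mem _ hx hy
    refine ⟨p + 1, le_bot_iff.1 fun x hx => ?_⟩
    have h1 : comms R = (comms R').map q.toLinearMap := by
      unfold comms
      rw [Submodule.map_span]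
      congr 1
      ext c
      constructor
      · rintro ⟨a, ha, b, hb, rfl⟩
        obtain ⟨a, rfl⟩ := hqs a
        obtain ⟨b, rfl⟩ := hqs b
        exact ⟨a * b - b * a, ⟨a, ha, b, hb, rfl⟩, by simp⟩
      · rintro ⟨_, ⟨a, ha, b, hb, rfl⟩, rfl⟩
        exact ⟨q a, ha, q b, hb, by simp⟩
    rw [h1, ← Submodule.map_pow] at hx
    obtain ⟨a, ha, rfl⟩ := hx
    have h2 := hpw p a ha
    rw [pow_succ, hp, Submodule.bot_mul, Submodule.mem_bot] at h2
    rw [Submodule.mem_bot]
    exact hψ0 a h2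

theorem t_GRU (n : Type) [Fintype n] [DecidableEq n] (κ : ℕ)
    (P : ZMod (κ + 1) → Matrix n n ℚ) (h1 : ∑ i, P i = 1)
    (h2 : ∀ i j, P i * P j = if i = j then P i else 0)
    (h : Submodule ℚ (Matrix n n ℚ)) (hh : ∀ X ∈ h, ∀ i, X * P i = P (i + 1) * X)
    (A : Subalgebra ℚ (Matrix n n ℚ)) (hA : A = Algebra.adjoin ℚ (h : Set (Matrix n n ℚ)))
    (e : Matrix n n ℚ) (heP : ∀ i, e * P i = P i * e)
    (S : Type) [Ring S] [Algebra ℚ S] (τ : S →ₗ[ℚ] ℚ) (q : A →ₐ[ℚ] S)
    (hq : Function.Surjective q) (hτ : TrAlg τ)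
    (hτq : ∀ a : A, τ (q a) = (e * (a : Matrix n n ℚ)).trace) :
    Nonempty (Grad κ ((h.comap A.val.toLinearMap).map q.toLinearMap)) := by
  have hmem : ∀ (a : A) (j : ZMod (κ + 1)), pj P j (a : Matrix n n ℚ) ∈ A := by
    intro a j
    have := pj_mem P h1 h2 h hh (a : Matrix n n ℚ) (hA ▸ a.2) j
    exact hA.symm ▸ this
  let pA : ZMod (κ + 1) → A →ₗ[ℚ] A := fun j =>
    ((pj P j).comp A.val.toLinearMap).codRestrict (Subalgebra.toSubmodule A) fun a => hmem a j
  have hpA : ∀ j (a : A), ((pA j a : A) : Matrix n n ℚ) = pj P j (a : Matrix n n ℚ) := fun j a => rfl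
  -- the kernel is stable
  have hker : ∀ (j : ZMod (κ + 1)) (a : A), q a = 0 → q (pA j a) = 0 := by
    intro j a ha
    refine hτ.nondeg _ fun s => ?_
    obtain ⟨b, rfl⟩ := hq s
    rw [← map_mul, hτq]
    have := tr_pj P e (a : Matrix n n ℚ) (b : Matrix n n ℚ) heP j
    rw [show ((pA j a * b : A) : Matrix n n ℚ) = pj P j (a : Matrix n n ℚ) * (b : Matrix n n ℚ) from
      rfl, this]
    have h3 : (a : Matrix n n ℚ) * pj P (-j) (b : Matrix n n ℚ) =
        ((a * pA (-j) b : A) : Matrix n n ℚ) := rfl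
    rw [h3, ← hτq, map_mul, ha, zero_mul, map_zero]
  obtain ⟨σ, hσ⟩ := LinearMap.exists_rightInverse_of_surjective q.toLinearMap
    (LinearMap.range_eq_top.2 hq)
  have hσ' : ∀ s, q (σ s) = s := fun s => by
    have := congrArg (fun f => f s) hσ
    simpa using this
  have hpr : ∀ j (a : A), q (pA j (σ (q a))) = q (pA j a) := by
    intro j a
    rw [← sub_eq_zero, ← map_sub, ← map_sub]
    apply hker
    rw [map_sub, hσ', sub_self]
  refine ⟨⟨fun d => (LinearMap.ker (pA d - LinearMap.id)).map q.toLinearMap,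
    fun j => q.toLinearMap.comp ((pA j).comp σ), ?_, ?_, ?_⟩⟩
  · rintro i j _ ⟨a, ha, rfl⟩ _ ⟨b, hb, rfl⟩
    have ha' : pj P i (a : Matrix n n ℚ) = a := by
      have : pA i a = a := by
        have := LinearMap.mem_ker.1 ha
        simpa [sub_eq_zero] using this
      exact congrArg Subtype.val this
    have hb' : pj P j (b : Matrix n n ℚ) = b := by
      have : pA j b = b := by
        have := LinearMap.mem_ker.1 hb
        simpa [sub_eq_zero] using this
      exact congrArg Subtype.val this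
    refine ⟨a * b, ?_, ?_⟩
    · refine LinearMap.mem_ker.2 ?_
      rw [LinearMap.sub_apply, LinearMap.id_apply, sub_eq_zero]
      apply Subtype.ext
      rw [hpA]
      change pj P (i + j) ((a : Matrix n n ℚ) * (b : Matrix n n ℚ)) = _
      rw [pj_mul P h1 h2, Finset.sum_eq_single j]
      · rw [show i + j - j = i by abel, ha', hb']
        rfl
      · intro k _ hk
        rw [← hb', pj_pj P h2, if_neg hk, mul_zero]
      · simp
    · change q (a * b) = q a * q b
      exact map_mul q a b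
  · rintro _ ⟨a, ha, rfl⟩
    refine ⟨a, ?_, rfl⟩
    refine LinearMap.mem_ker.2 ?_
    rw [LinearMap.sub_apply, LinearMap.id_apply, sub_eq_zero]
    apply Subtype.ext
    rw [hpA, pj_hom P h1 h2 (X := (a : Matrix n n ℚ)) (hh _ ha), if_pos rfl]
  · rintro i _ ⟨a, ha, rfl⟩ j
    have ha' : pA i a = a := by
      have := LinearMap.mem_ker.1 ha
      simpa [sub_eq_zero] using this
    change q (pA j (σ (q a))) = if j = i then q a else 0
    rw [hpr]
    have : pA j a = if j = i then a else 0 := by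
      apply Subtype.ext
      rw [hpA]
      conv_lhs => rw [← ha', hpA, pj_pj P h2]
      by_cases hji : j = i
      · rw [if_pos hji, if_pos hji, ← hpA, ha']
      · rw [if_neg hji, if_neg hji]
        rfl
    rw [this]
    split_ifs
    · rfl
    · exact map_zero q

end Pool.Agent.Helper69K1.GrU
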