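import Pool.Agent.Helper69K1.Gr.Stm

/-!
# Tensor products with cyclic shifts
-/

namespace Pool.Agent.Helper69K1.GrU

open Module Pool.Agent.Helper69K1 Pool.Agent.Helper69K1.Gr

variable {n : Type} [Fintype n] [DecidableEq n] {κ : ℕ}

/-- `(shift by d) ⊗ X` -/
def sh (d : ZMod (κ + 1)) :
    Matrix n n ℚ →ₗ[ℚ] Matrix (ZMod (κ + 1) × n) (ZMod (κ + 1) × n) ℚ where
  toFun X := Matrix.of fun i j => if i.1 = j.1 + d then X i.2 j.2 else 0
  map_add' X Y := by
    ext i j
    simp only [Matrix.of_apply, Matrix.add_apply]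
    split_ifs <;> simp
  map_smul' c X := by
    ext i j
    simp only [Matrix.of_apply, Matrix.smul_apply, RingHom.id_apply]
    split_ifs <;> simp

theorem sh_apply (d : ZMod (κ + 1)) (X : Matrix n n ℚ) (i j : ZMod (κ + 1) × n) :
    sh d X i j = if i.1 = j.1 + d then X i.2 j.2 else 0 := rfl

theorem sh_mul (d d' : ZMod (κ + 1)) (X Y : Matrix n n ℚ) :
    sh d X * sh d' Y = sh (d + d') (X * Y) := by
  ext ⟨i, a⟩ ⟨j, b⟩
  rw [Matrix.mul_apply, Fintype.sum_prod_type, Finset.sum_eq_single (j + d')]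
  · simp only [sh_apply, if_true]
    rw [show j + d' + d = j + (d + d') by ring]
    by_cases h : i = j + (d + d')
    · simp only [if_pos h, Matrix.mul_apply]
    · simp only [if_neg h, zero_mul, Finset.sum_const_zero]
  · intro k _ hk
    apply Finset.sum_eq_zero
    intro c _
    simp only [sh_apply, if_neg hk, mul_zero]
  · intro h
    exact absurd (Finset.mem_univ _) h

theorem sh_one : sh (κ := κ) (n := n) 0 1 = 1 := by
  ext ⟨i, a⟩ ⟨j, b⟩
  rw [sh_apply, Matrix.one_apply, add_zero]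
  by_cases h : i = j
  · subst h
    by_cases h2 : a = b
    · subst h2; simp
    · simp [h2]
  · simp [h]

theorem sh_inj {d : ZMod (κ + 1)} {X : Matrix n n ℚ} (h : sh d X = 0) : X = 0 := by
  ext a b
  have := congrFun (congrFun h (0 + d, a)) (0, b)
  simpa [sh_apply] using this

theorem sh_pow (d : ZMod (κ + 1)) (X : Matrix n n ℚ) (m : ℕ) :
    (sh d X) ^ m = sh ((m : ZMod (κ + 1)) * d) (X ^ m) := by
  induction m with
  | zero => rw [pow_zero, pow_zero, Nat.cast_zero, zero_mul, sh_one]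
  | succ m ih =>
      rw [pow_succ, ih, sh_mul, pow_succ]
      congr 1
      push_cast
      ring_nf

theorem sh_trace (d : ZMod (κ + 1)) (X : Matrix n n ℚ) :
    (sh d X).trace = if d = 0 then ((κ : ℚ) + 1) * X.trace else 0 := by
  rw [Matrix.trace, Fintype.sum_prod_type]
  simp only [Matrix.diag_apply, sh_apply, left_eq_add]
  by_cases h : d = 0
  · simp only [if_pos h]
    rw [Finset.sum_const, Finset.card_univ, ZMod.card, nsmul_eq_mul]
    push_cast
    rfl
  · simp only [if_neg h]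
    simp

/-- the projection to the block `i` -/
def Pr (i : ZMod (κ + 1)) : Matrix (ZMod (κ + 1) × n) (ZMod (κ + 1) × n) ℚ :=
  Matrix.diagonal fun a => if a.1 = i then 1 else 0

theorem Pr_sum : ∑ i : ZMod (κ + 1), Pr (n := n) i = 1 := by
  ext a b
  rw [Matrix.sum_apply]
  by_cases h : a = b
  · subst h
    simp [Pr]
  · simp [Pr, Matrix.diagonal_apply_ne _ h, Matrix.one_apply_ne h]

theorem Pr_mul (i j : ZMod (κ + 1)) :
    Pr (n := n) i * Pr j = if i = j then Pr i else 0 := by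
  unfold Pr
  rw [Matrix.diagonal_mul_diagonal]
  by_cases h : i = j
  · subst h
    rw [if_pos rfl]
    congr 1
    funext a
    split_ifs <;> simp
  · rw [if_neg h]
    have : (fun a : ZMod (κ + 1) × n => (if a.1 = i then (1 : ℚ) else 0) *
        (if a.1 = j then 1 else 0)) = 0 := by
      funext a
      by_cases h1 : a.1 = i
      · have h2 : ¬ a.1 = j := fun h2 => h (h1.symm.trans h2)
        rw [if_neg h2, mul_zero]
        rfl
      · rw [if_neg h1, zero_mul]
        rfl
    rw [this]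
    exact Matrix.diagonal_zero

theorem sh_Pr (d : ZMod (κ + 1)) (X : Matrix n n ℚ) (i : ZMod (κ + 1)) :
    sh d X * Pr i = Pr (i + d) * sh d X := by
  ext a b
  unfold Pr
  rw [Matrix.mul_diagonal, Matrix.diagonal_mul, sh_apply]
  by_cases h : a.1 = b.1 + d
  · rw [if_pos h]
    by_cases h2 : b.1 = i
    · have h3 : a.1 = i + d := by rw [h, h2]
      rw [if_pos h2, if_pos h3, mul_one, one_mul]
    · have h3 : ¬ a.1 = i + d := fun h3 => h2 (add_right_cancel (h.symm.trans h3))
      rw [if_neg h2, if_neg h3, mul_zero, zero_mul]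
  · rw [if_neg h, zero_mul, mul_zero]

/-- The elements of `com` of the shifted space. -/
theorem com_sh (B : Submodule ℚ (Matrix n n ℚ)) (j : ℕ) :
    ∀ c ∈ com (B.map (sh (κ := κ) 1)) j, ∃ Z ∈ com B j, c = sh (((j + 1 : ℕ) : ZMod (κ + 1))) Z := by
  induction j with
  | zero =>
    rintro c ⟨X, hX, rfl⟩
    exact ⟨X, hX, by rw [zero_add, Nat.cast_one]⟩
  | succ j ih =>
    intro c hc
    refine Submodule.span_induction (p := fun c _ => ∃ Z ∈ com B (j + 1),
      c = sh (((j + 1 + 1 : ℕ) : ZMod (κ + 1))) Z) ?_ ?_ ?_ ?_ hc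
    · rintro c ⟨a, ⟨X, hX, rfl⟩, b, hb, rfl⟩
      obtain ⟨Z, hZ, rfl⟩ := ih b hb
      refine ⟨X * Z - Z * X, Submodule.subset_span ⟨X, hX, Z, hZ, rfl⟩, ?_⟩
      rw [sh_mul, sh_mul, map_sub, add_comm (1 : ZMod (κ + 1)), ← Nat.cast_succ]
    · exact ⟨0, Submodule.zero_mem _, (map_zero _).symm⟩
    · rintro x y _ _ ⟨Z, hZ, rfl⟩ ⟨Z', hZ', rfl⟩
      exact ⟨Z + Z', Submodule.add_mem _ hZ hZ', (map_add _ _ _).symm⟩
    · rintro r x _ ⟨Z, hZ, rfl⟩
      exact ⟨r • Z, Submodule.smul_mem _ _ hZ, (map_smul _ _ _).symm⟩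

end Pool.Agent.Helper69K1.GrU
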