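import Pool.Agent.Helper69K1.GrU.Stm
import Pool.Agent.Helper69K1.GrU.Sh
import Pool.Agent.Helper69K1.GrU.MG

/-!
# Piece BU
-/

set_option autoImplicit false
set_option linter.unusedSectionVars false

namespace Pool.Agent.Helper69K1.GrU

open Module Pool.Agent.Helper69K1 Pool.Agent.Helper69K1.Gr

/-- An element orthogonal to the centraliser of `x` is a commutator with `x`. -/
theorem mem_ad {S : Type} [Ring S] [Algebra ℚ S] [FiniteDimensional ℚ S] (τ : S →ₗ[ℚ] ℚ)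
    (hτ : TrAlg τ) (x Z : S) (h : ∀ c, x * c = c * x → τ (Z * c) = 0) :
    ∃ s, Z = s * x - x * s := by
  by_contra hcon
  push Not at hcon
  let φ : S →ₗ[ℚ] S := LinearMap.mulRight ℚ x - LinearMap.mulLeft ℚ x
  have hφ : ∀ s, φ s = s * x - x * s := fun s => by simp [φ]
  have hZ : Z ∉ LinearMap.range φ := by
    rintro ⟨s, hs⟩
    exact hcon s (by rw [← hφ, hs])
  obtain ⟨f, hfZ, hfR⟩ := Submodule.exists_le_ker_of_notMem hZ
  let Φ : S →ₗ[ℚ] Module.Dual ℚ S :=
    LinearMap.mk₂ ℚ (fun c a => τ (a * c))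
      (fun c c' a => by simp [mul_add])
      (fun r c a => by simp)
      (fun c a a' => by simp [add_mul])
      (fun r c a => by simp)
  have hinj : Function.Injective Φ := by
    rw [← LinearMap.ker_eq_bot, LinearMap.ker_eq_bot']
    intro c hc
    refine hτ.nondeg c fun b => ?_
    rw [hτ.comm]
    exact congrArg (fun g => g b) hc
  have hsurj : Function.Surjective Φ := by
    refine (LinearMap.injective_iff_surjective_of_finrank_eq_finrank ?_).1 hinj
    rw [Subspace.dual_finrank_eq]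
  obtain ⟨c, hc⟩ := hsurj f
  have hc' : ∀ a, f a = τ (a * c) := fun a => by rw [← hc]; rfl
  have hcx : x * c - c * x = 0 := by
    refine hτ.nondeg _ fun s => ?_
    have h1 : f (s * x - x * s) = 0 := by
      have := hfR (show φ s ∈ LinearMap.range φ from ⟨s, rfl⟩)
      rwa [LinearMap.mem_ker, hφ] at this
    rw [hc', sub_mul, map_sub, mul_assoc, mul_assoc, hτ.comm x, mul_assoc, ← map_sub,
      ← mul_sub, hτ.comm] at h1
    exact h1
  apply hfZ
  rw [hc']
  exact h c (sub_eq_zero.1 hcx)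

variable {n : Type} [Fintype n] [DecidableEq n] {κ : ℕ}

/-- Decompositions along the degrees. -/
theorem dec_aux (A : Subalgebra ℚ (Matrix n n ℚ))
    (A' : Subalgebra ℚ (Matrix (ZMod (κ + 1) × n) (ZMod (κ + 1) × n) ℚ))
    (c d : ZMod (κ + 1) → Matrix n n ℚ) (hc1 : ∀ j, c j ∈ A) (hc2 : ∀ j, sh j (c j) ∈ A')
    (hd1 : ∀ j, d j ∈ A) (hd2 : ∀ j, sh j (d j) ∈ A') :
    ∃ f : ZMod (κ + 1) → Matrix n n ℚ, (∀ j, f j ∈ A) ∧ (∀ j, sh j (f j) ∈ A') ∧
      (∑ j, c j) * (∑ j, d j) = ∑ j, f j ∧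
      (∑ j, sh j (c j)) * (∑ j, sh j (d j)) = ∑ j, sh j (f j) := by
  have hf : ∀ j, sh j (∑ i, c (j - i) * d i) = ∑ i, sh (j - i) (c (j - i)) * sh i (d i) := by
    intro j
    rw [map_sum]
    refine Finset.sum_congr rfl fun i _ => ?_
    rw [sh_mul, sub_add_cancel]
  refine ⟨fun j => ∑ i, c (j - i) * d i, fun j => sum_mem fun i _ => A.mul_mem (hc1 _) (hd1 _),
    fun j => ?_, ?_, ?_⟩
  · rw [hf]
    exact sum_mem fun i _ => A'.mul_mem (hc2 _) (hd2 _)
  · rw [Finset.sum_comm, Finset.mul_sum]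
    refine Finset.sum_congr rfl fun i _ => ?_
    rw [← Finset.sum_mul]
    congr 1
    exact (Fintype.sum_equiv (Equiv.subRight i) (fun j => c (j - i)) c fun j => rfl).symm
  · simp only [hf]
    rw [Finset.sum_comm, Finset.mul_sum]
    refine Finset.sum_congr rfl fun i _ => ?_
    rw [← Finset.sum_mul]
    congr 1
    exact (Fintype.sum_equiv (Equiv.subRight i) (fun j => sh (j - i) (c (j - i)))
      (fun j => sh j (c j)) fun j => rfl).symm

theorem sum_single_ne {M : Type} [AddCommGroup M] (i : ZMod (κ + 1)) (v : M) :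
    ∑ j, (Pi.single i v : ZMod (κ + 1) → M) j = v := by
  rw [Finset.sum_eq_single i]
  · rw [Pi.single_eq_same]
  · intro j _ hj
    rw [Pi.single_eq_of_ne hj]
  · intro h
    exact absurd (Finset.mem_univ _) h

theorem sh_single (i : ZMod (κ + 1)) (v : Matrix n n ℚ) (j : ZMod (κ + 1)) :
    sh j ((Pi.single i v : ZMod (κ + 1) → Matrix n n ℚ) j) =
      (Pi.single i (sh i v) : ZMod (κ + 1) → _) j := by
  by_cases h : j = i
  · subst h
    rw [Pi.single_eq_same, Pi.single_eq_same]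
  · rw [Pi.single_eq_of_ne h, Pi.single_eq_of_ne h, map_zero]

theorem single_ok (A : Subalgebra ℚ (Matrix n n ℚ))
    (A' : Subalgebra ℚ (Matrix (ZMod (κ + 1) × n) (ZMod (κ + 1) × n) ℚ)) (i : ZMod (κ + 1))
    (v : Matrix n n ℚ) (h1 : v ∈ A) (h2 : sh i v ∈ A') :
    (∀ j, (Pi.single i v : ZMod (κ + 1) → Matrix n n ℚ) j ∈ A) ∧
    (∀ j, sh j ((Pi.single i v : ZMod (κ + 1) → Matrix n n ℚ) j) ∈ A') ∧
    ∑ j, (Pi.single i v : ZMod (κ + 1) → Matrix n n ℚ) j = v ∧
    ∑ j, sh j ((Pi.single i v : ZMod (κ + 1) → Matrix n n ℚ) j) = sh i v := by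
  refine ⟨fun j => ?_, fun j => ?_, sum_single_ne i v, ?_⟩
  · by_cases h : j = i
    · subst h; rwa [Pi.single_eq_same]
    · rw [Pi.single_eq_of_ne h]; exact A.zero_mem
  · by_cases h : j = i
    · subst h; rwa [Pi.single_eq_same]
    · rw [Pi.single_eq_of_ne h, map_zero]; exact A'.zero_mem
  · simp only [sh_single]
    exact sum_single_ne i _

theorem dec_big (h : Submodule ℚ (Matrix n n ℚ)) (A : Subalgebra ℚ (Matrix n n ℚ))
    (hA : A = Algebra.adjoin ℚ (h : Set (Matrix n n ℚ)))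
    (A' : Subalgebra ℚ (Matrix (ZMod (κ + 1) × n) (ZMod (κ + 1) × n) ℚ))
    (hA' : A' = Algebra.adjoin ℚ ((h.map (sh (κ := κ) 1) : Submodule ℚ _) : Set _))
    (C : Matrix (ZMod (κ + 1) × n) (ZMod (κ + 1) × n) ℚ) (hC : C ∈ A') :
    ∃ c : ZMod (κ + 1) → Matrix n n ℚ, (∀ j, c j ∈ A) ∧ (∀ j, sh j (c j) ∈ A') ∧
      C = ∑ j, sh j (c j) := by
  have hhA : ∀ a ∈ h, a ∈ A := fun a ha => by rw [hA]; exact Algebra.subset_adjoin ha
  have hhA' : ∀ a ∈ h, sh 1 a ∈ A' := fun a ha => by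
    rw [hA']; exact Algebra.subset_adjoin ⟨a, ha, rfl⟩
  have hC2 := hC
  rw [hA'] at hC2
  clear hC
  induction hC2 using Algebra.adjoin_induction with
  | mem y hy =>
      obtain ⟨X, hX, rfl⟩ := hy
      obtain ⟨h1, h2, -, h4⟩ := single_ok A A' 1 X (hhA X hX) (hhA' X hX)
      exact ⟨_, h1, h2, h4.symm⟩
  | algebraMap r =>
      have hr : sh (κ := κ) 0 (r • (1 : Matrix n n ℚ)) = algebraMap ℚ _ r := by
        rw [map_smul, sh_one, Algebra.algebraMap_eq_smul_one]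
      obtain ⟨h1, h2, -, h4⟩ := single_ok A A' 0 (r • (1 : Matrix n n ℚ))
        (A.smul_mem (one_mem _) r) (by rw [hr]; exact A'.algebraMap_mem r)
      exact ⟨_, h1, h2, by rw [h4, hr]⟩
  | add x y _ _ hx hy =>
      obtain ⟨c, hc1, hc2, rfl⟩ := hx
      obtain ⟨d, hd1, hd2, rfl⟩ := hy
      refine ⟨fun j => c j + d j, fun j => A.add_mem (hc1 j) (hd1 j), fun j => ?_, ?_⟩
      · rw [map_add]; exact A'.add_mem (hc2 j) (hd2 j)
      · simp only [map_add, Finset.sum_add_distrib]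
  | mul x y _ _ hx hy =>
      obtain ⟨c, hc1, hc2, rfl⟩ := hx
      obtain ⟨d, hd1, hd2, rfl⟩ := hy
      obtain ⟨f, hf1, hf2, -, hf4⟩ := dec_aux A A' c d hc1 hc2 hd1 hd2
      exact ⟨f, hf1, hf2, hf4⟩

theorem dec_small (h : Submodule ℚ (Matrix n n ℚ)) (A : Subalgebra ℚ (Matrix n n ℚ))
    (hA : A = Algebra.adjoin ℚ (h : Set (Matrix n n ℚ)))
    (A' : Subalgebra ℚ (Matrix (ZMod (κ + 1) × n) (ZMod (κ + 1) × n) ℚ))
    (hA' : A' = Algebra.adjoin ℚ ((h.map (sh (κ := κ) 1) : Submodule ℚ _) : Set _))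
    (C : Matrix n n ℚ) (hC : C ∈ A) :
    ∃ c : ZMod (κ + 1) → Matrix n n ℚ, (∀ j, c j ∈ A) ∧ (∀ j, sh j (c j) ∈ A') ∧
      C = ∑ j, c j := by
  have hhA : ∀ a ∈ h, a ∈ A := fun a ha => by rw [hA]; exact Algebra.subset_adjoin ha
  have hhA' : ∀ a ∈ h, sh 1 a ∈ A' := fun a ha => by
    rw [hA']; exact Algebra.subset_adjoin ⟨a, ha, rfl⟩
  have hC2 := hC
  rw [hA] at hC2
  clear hC
  induction hC2 using Algebra.adjoin_induction with
  | mem X hX =>
      obtain ⟨h1, h2, h3, -⟩ := single_ok A A' 1 X (hhA X hX) (hhA' X hX)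
      exact ⟨_, h1, h2, h3.symm⟩
  | algebraMap r =>
      have hr : sh (κ := κ) 0 (r • (1 : Matrix n n ℚ)) = algebraMap ℚ _ r := by
        rw [map_smul, sh_one, Algebra.algebraMap_eq_smul_one]
      obtain ⟨h1, h2, h3, -⟩ := single_ok A A' 0 (r • (1 : Matrix n n ℚ))
        (A.smul_mem (one_mem _) r) (by rw [hr]; exact A'.algebraMap_mem r)
      exact ⟨_, h1, h2, by rw [h3, Algebra.algebraMap_eq_smul_one]⟩
  | add x y _ _ hx hy =>
      obtain ⟨c, hc1, hc2, rfl⟩ := hx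
      obtain ⟨d, hd1, hd2, rfl⟩ := hy
      refine ⟨fun j => c j + d j, fun j => A.add_mem (hc1 j) (hd1 j), fun j => ?_, ?_⟩
      · rw [map_add]; exact A'.add_mem (hc2 j) (hd2 j)
      · simp only [Finset.sum_add_distrib]
  | mul x y _ _ hx hy =>
      obtain ⟨c, hc1, hc2, rfl⟩ := hx
      obtain ⟨d, hd1, hd2, rfl⟩ := hy
      obtain ⟨f, hf1, hf2, hf3, -⟩ := dec_aux A A' c d hc1 hc2 hd1 hd2
      exact ⟨f, hf1, hf2, hf3⟩

/-- The radical of the trace form of the big algebra lies over the radical of the small one. -/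
theorem rad_key (h : Submodule ℚ (Matrix n n ℚ)) (A : Subalgebra ℚ (Matrix n n ℚ))
    (hA : A = Algebra.adjoin ℚ (h : Set (Matrix n n ℚ)))
    (A' : Subalgebra ℚ (Matrix (ZMod (κ + 1) × n) (ZMod (κ + 1) × n) ℚ))
    (hA' : A' = Algebra.adjoin ℚ ((h.map (sh (κ := κ) 1) : Submodule ℚ _) : Set _))
    (e : Matrix n n ℚ) (hee : e * e = e) (heA' : ∀ a ∈ A', sh 0 e * a = a * sh 0 e)
    (k : ZMod (κ + 1)) (y : Matrix n n ℚ) (hy : sh k y ∈ A')
    (h0 : ∀ b ∈ A', (sh 0 e * (sh k y * b)).trace = 0) :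
    ∀ a ∈ A, (e * (y * a)).trace = 0 := by
  intro a ha
  obtain ⟨c, hc1, hc2, rfl⟩ := dec_small h A hA A' hA' a ha
  rw [Finset.mul_sum, Finset.mul_sum, Matrix.trace_sum]
  refine Finset.sum_eq_zero fun i _ => ?_
  have hee' : sh (κ := κ) 0 e * sh 0 e = sh 0 e := by rw [sh_mul, hee, add_zero]
  have hV : sh (k + i) (y * c i) = sh k y * sh i (c i) := (sh_mul _ _ _ _).symm
  have hVA : sh (k + i) (y * c i) ∈ A' := by rw [hV]; exact A'.mul_mem hy (hc2 i)
  have hW : sh (k + i) (e * (y * c i)) = sh 0 e * sh (k + i) (y * c i) := by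
    rw [sh_mul, zero_add]
  have hn : IsNilpotent (sh (k + i) (e * (y * c i))) := by
    apply PieceM.mat_nil_of_trace
    intro m hm
    obtain ⟨m, rfl⟩ := Nat.exists_eq_succ_of_ne_zero hm.ne'
    rw [Nat.succ_eq_add_one, hW, PieceM.e_pow hee' (heA' _ hVA), pow_succ', hV, mul_assoc]
    exact h0 _ (A'.mul_mem (hc2 i) (A'.pow_mem (by rw [← hV]; exact hVA) m))
  obtain ⟨m, hm⟩ := hn
  rw [sh_pow] at hm
  exact PieceM.trace_of_nil _ ⟨m, sh_inj hm⟩

/-- The image of a generating space in a quotient. -/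
theorem setup (hC : S_COM) {N : Type} [Fintype N] [DecidableEq N] (κ : ℕ)
    (h : Submodule ℚ (Matrix N N ℚ)) (hcom : com h (κ + 1) ≤ h)
    (A : Subalgebra ℚ (Matrix N N ℚ)) (hA : A = Algebra.adjoin ℚ (h : Set (Matrix N N ℚ)))
    (S : Type) [Ring S] [Algebra ℚ S] (q : A →ₐ[ℚ] S) (hq : Function.Surjective q) :
    com ((h.comap A.val.toLinearMap).map q.toLinearMap) (κ + 1) ≤
      (h.comap A.val.toLinearMap).map q.toLinearMap ∧
    Algebra.adjoin ℚ (((h.comap A.val.toLinearMap).map q.toLinearMap : Submodule ℚ S) : Set S) =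
      ⊤ ∧
    (∀ l ∈ com ((h.comap A.val.toLinearMap).map q.toLinearMap) κ, ∃ l' : A,
      (l' : Matrix N N ℚ) ∈ com h κ ∧ q l' = l) ∧
    ∀ a : A, (a : Matrix N N ℚ) ∈ h →
      q a ∈ (h.comap A.val.toLinearMap).map q.toLinearMap := by
  have hhA : ∀ a ∈ h, a ∈ A := fun a ha => by rw [hA]; exact Algebra.subset_adjoin ha
  obtain ⟨hAs, hAsdef⟩ : ∃ hAs : Submodule ℚ A, hAs = h.comap A.val.toLinearMap := ⟨_, rfl⟩
  rw [← hAsdef]
  have hmem : ∀ a : A, a ∈ hAs ↔ (a : Matrix N N ℚ) ∈ h := by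
    intro a
    rw [hAsdef]
    rfl
  have hmap : hAs.map A.val.toLinearMap = h := by
    apply le_antisymm
    · rintro _ ⟨a, ha, rfl⟩
      exact (hmem a).1 ha
    · intro a ha
      exact ⟨⟨a, hhA a ha⟩, (hmem _).2 ha, rfl⟩
  have hcomA : ∀ j, (com hAs j).map A.val.toLinearMap = com h j := by
    intro j
    rw [← (hC A hAs).2.2.2 (Matrix N N ℚ) A.val j, hmap]
  have hcomq : ∀ j, com (hAs.map q.toLinearMap) j = (com hAs j).map q.toLinearMap :=
    fun j => (hC A hAs).2.2.2 S q j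
  have comA : com hAs (κ + 1) ≤ hAs := by
    intro a ha
    rw [hmem]
    apply hcom
    rw [← hcomA]
    exact ⟨a, ha, rfl⟩
  refine ⟨?_, ?_, ?_, fun a ha => ⟨a, (hmem a).2 ha, rfl⟩⟩
  · rw [hcomq]
    exact Submodule.map_mono comA
  · have h1 : Algebra.adjoin ℚ (hAs : Set A) = ⊤ := by
      subst hA
      have h2 : (hAs : Set (Algebra.adjoin ℚ (h : Set (Matrix N N ℚ)))) =
          (Subtype.val : Algebra.adjoin ℚ (h : Set (Matrix N N ℚ)) → Matrix N N ℚ) ⁻¹'
            (h : Set (Matrix N N ℚ)) := by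
        ext a
        exact hmem a
      rw [h2]
      exact Algebra.adjoin_adjoin_coe_preimage
    have h2 : ((hAs.map q.toLinearMap : Submodule ℚ S) : Set S) = q '' (hAs : Set A) := rfl
    rw [h2, Algebra.adjoin_image, h1, Algebra.map_top, AlgHom.range_eq_top]
    exact hq
  · intro l hl
    rw [hcomq] at hl
    obtain ⟨l', hl', rfl⟩ := hl
    refine ⟨l', ?_, rfl⟩
    rw [← hcomA]
    exact ⟨l', hl', rfl⟩

theorem t_BU (hC : S_COM) (hB : S_B) : S_BU := by
  intro n _ _ κ h hcom A hA e hee heh x hx Z hZ hra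
  obtain ⟨a, ha, hra⟩ := hra
  -- the small algebra
  have hhA : ∀ a ∈ h, a ∈ A := fun a ha => by rw [hA]; exact Algebra.subset_adjoin ha
  have heA : ∀ a ∈ A, e * a = a * e := by
    intro a ha
    rw [hA] at ha
    induction ha using Algebra.adjoin_induction with
    | mem x hx => exact heh x hx
    | algebraMap r => exact (Algebra.commutes r e).symm
    | add x y _ _ hx hy => rw [mul_add, add_mul, hx, hy]
    | mul x y _ _ hx hy => rw [← mul_assoc, hx, mul_assoc, hy, mul_assoc]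
  -- the big algebra
  obtain ⟨h', hh'⟩ : ∃ h' : Submodule ℚ (Matrix (ZMod (κ + 1) × n) (ZMod (κ + 1) × n) ℚ),
    h' = h.map (sh (κ := κ) 1) := ⟨_, rfl⟩
  obtain ⟨A', hA'⟩ : ∃ A' : Subalgebra ℚ (Matrix (ZMod (κ + 1) × n) (ZMod (κ + 1) × n) ℚ),
    A' = Algebra.adjoin ℚ (h' : Set (Matrix (ZMod (κ + 1) × n) (ZMod (κ + 1) × n) ℚ)) := ⟨_, rfl⟩
  have hA'2 : A' = Algebra.adjoin ℚ ((h.map (sh (κ := κ) 1) : Submodule ℚ _) : Set _) := by
    rw [hA', hh']
  obtain ⟨e', he'⟩ : ∃ e' : Matrix (ZMod (κ + 1) × n) (ZMod (κ + 1) × n) ℚ,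
    e' = sh 0 e := ⟨_, rfl⟩
  have hee' : e' * e' = e' := by rw [he', sh_mul, hee, add_zero]
  have hh'A : ∀ a ∈ h', a ∈ A' := fun a ha => by rw [hA']; exact Algebra.subset_adjoin ha
  have heA' : ∀ a ∈ A', e' * a = a * e' := by
    intro a ha
    rw [hA'] at ha
    induction ha using Algebra.adjoin_induction with
    | mem x hx =>
        rw [hh'] at hx
        obtain ⟨X, hX, rfl⟩ := hx
        rw [he', sh_mul, sh_mul, heh X hX, zero_add, add_zero]
    | algebraMap r => exact (Algebra.commutes r e').symm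
    | add x y _ _ hx hy => rw [mul_add, add_mul, hx, hy]
    | mul x y _ _ hx hy => rw [← mul_assoc, hx, mul_assoc, hy, mul_assoc]
  have heA'2 : ∀ a ∈ A', sh 0 e * a = a * sh 0 e := by rw [← he']; exact heA'
  obtain ⟨S, iR, iA, iF, τ, q, hq, hτ, htr⟩ := t_MU (ZMod (κ + 1) × n) A' e' hee' heA'
  have hq0 : ∀ a : A', q a = 0 → ∀ b ∈ A', (e' * ((a : Matrix _ _ ℚ) * b)).trace = 0 := by
    intro a ha b hb
    have h1 := htr (a * ⟨b, hb⟩)
    rw [map_mul, ha, zero_mul, map_zero] at h1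
    exact h1.symm
  have hq1 : ∀ a : A', (∀ b ∈ A', (e' * ((a : Matrix _ _ ℚ) * b)).trace = 0) → q a = 0 := by
    intro a ha
    refine hτ.nondeg _ fun b => ?_
    obtain ⟨b', rfl⟩ := hq b
    rw [← map_mul, htr]
    exact ha b' b'.2
  have gr : Nonempty (Grad κ ((h'.comap A'.val.toLinearMap).map q.toLinearMap)) := by
    refine t_GRU _ κ Pr Pr_sum Pr_mul h' ?_ A' hA' e' ?_ S τ q hq hτ htr
    · rw [hh']
      rintro _ ⟨X, hX, rfl⟩ i
      exact sh_Pr 1 X i
    · intro i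
      rw [he', sh_Pr, add_zero]
  have hdeg : (((κ + 1 + 1 : ℕ) : ZMod (κ + 1))) = 1 := by
    rw [Nat.cast_add, ZMod.natCast_self, zero_add, Nat.cast_one]
  have hdeg0 : (((κ + 1 : ℕ) : ZMod (κ + 1))) = 0 := ZMod.natCast_self _
  have hcom' : com h' (κ + 1) ≤ h' := by
    intro c hc
    rw [hh'] at hc ⊢
    obtain ⟨Z, hZ, rfl⟩ := com_sh h (κ + 1) c hc
    exact ⟨Z, hcom hZ, by rw [hdeg]⟩
  obtain ⟨comb, adj, hback, hforth⟩ := setup hC κ h' hcom' A' hA' S q hq
  -- the elements `x` and `Z`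
  have hsh : ∀ u ∈ h, sh 1 u ∈ A' := fun u hu => hh'A _ (by rw [hh']; exact ⟨u, hu, rfl⟩)
  have hshb : ∀ (u : Matrix n n ℚ) (hu : u ∈ h), q ⟨sh 1 u, hsh u hu⟩ ∈
      (h'.comap A'.val.toLinearMap).map q.toLinearMap := by
    intro u hu
    exact hforth _ (by rw [hh']; exact ⟨u, hu, rfl⟩)
  have hκ : ((κ : ℚ) + 1) ≠ 0 := by positivity
  obtain ⟨s, hs⟩ : ∃ s, q ⟨sh 1 Z, hsh Z hZ⟩ =
      s * q ⟨sh 1 x, hsh x hx⟩ - q ⟨sh 1 x, hsh x hx⟩ * s := by
    refine mem_ad τ hτ _ _ fun c' hc' => ?_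
    obtain ⟨C, rfl⟩ := hq c'
    obtain ⟨c, hc1, hc2, hc3⟩ := dec_big h A hA A' hA'2 C C.2
    -- the commutator of the part of degree minus one
    have hcx : q (C * ⟨sh 1 x, hsh x hx⟩ - ⟨sh 1 x, hsh x hx⟩ * C) = 0 := by
      rw [map_sub, map_mul, map_mul, hc', sub_self]
    have h1 := hq0 _ hcx
    have hyA : sh 0 (c (-1) * x - x * c (-1)) ∈ A' := by
      have e1 : sh (κ := κ) 0 (c (-1) * x - x * c (-1)) =
          sh (-1) (c (-1)) * sh 1 x - sh 1 x * sh (-1) (c (-1)) := by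
        rw [sh_mul, sh_mul, neg_add_cancel, add_neg_cancel, map_sub]
      rw [e1]
      exact A'.sub_mem (A'.mul_mem (hc2 _) (hsh x hx)) (A'.mul_mem (hsh x hx) (hc2 _))
    have h2 : ∀ b ∈ A', (sh 0 e * (sh 0 (c (-1) * x - x * c (-1)) * b)).trace = 0 := by
      intro b hb
      obtain ⟨d, hd1, hd2, rfl⟩ := dec_big h A hA A' hA'2 b hb
      have h3 := h1 (sh 0 (d 0)) (hd2 0)
      have e2 : (e' * (((C * ⟨sh 1 x, hsh x hx⟩ - ⟨sh 1 x, hsh x hx⟩ * C : A') :
          Matrix _ _ ℚ) * sh 0 (d 0))) =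
          ∑ j, sh (j + 1) (e * ((c j * x - x * c j) * d 0)) := by
        change e' * (((C : Matrix _ _ ℚ) * sh 1 x - sh 1 x * (C : Matrix _ _ ℚ)) * sh 0 (d 0)) = _
        rw [hc3, he', Finset.sum_mul, Finset.mul_sum, ← Finset.sum_sub_distrib, Finset.sum_mul,
          Finset.mul_sum]
        refine Finset.sum_congr rfl fun j _ => ?_
        rw [sh_mul, sh_mul, add_comm 1 j, ← map_sub, sh_mul, sh_mul, add_zero, zero_add]
      rw [e2, Matrix.trace_sum, Finset.sum_eq_single (-1 : ZMod (κ + 1))] at h3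
      · rw [sh_trace, if_pos (by ring)] at h3
        rw [Finset.mul_sum, Finset.mul_sum, Matrix.trace_sum, Finset.sum_eq_single 0]
        · rw [sh_mul, sh_mul, sh_trace, if_pos (by ring)]
          exact h3
        · intro j _ hj
          rw [sh_mul, sh_mul, sh_trace, if_neg (by rwa [zero_add, zero_add])]
        · intro h; exact absurd (Finset.mem_univ _) h
      · intro j _ hj
        rw [sh_trace, if_neg (fun h => hj (eq_neg_of_add_eq_zero_left h))]
      · intro h; exact absurd (Finset.mem_univ _) h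
    have h4 := rad_key h A hA A' hA'2 e hee heA'2 0 _ hyA h2 a ha
    -- the trace
    rw [← map_mul, htr]
    have e3 : (e' * ((⟨sh 1 Z, hsh Z hZ⟩ * C : A') : Matrix _ _ ℚ)) =
        ∑ j, sh (1 + j) (e * (Z * c j)) := by
      change e' * (sh 1 Z * (C : Matrix _ _ ℚ)) = _
      rw [hc3, he', Finset.mul_sum, Finset.mul_sum]
      refine Finset.sum_congr rfl fun j _ => ?_
      rw [sh_mul, sh_mul, zero_add]
    rw [e3, Matrix.trace_sum, Finset.sum_eq_single (-1 : ZMod (κ + 1))]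
    · rw [sh_trace, if_pos (by ring)]
      have h5 := hra (c (-1)) (hc1 _)
      have e4 : e * ((Z - (a * x - x * a)) * c (-1)) =
          e * (Z * c (-1)) - (e * (a * x * c (-1)) - e * (x * a * c (-1))) := by
        noncomm_ring
      have e5 : (e * (x * a * c (-1))).trace = (e * (a * c (-1) * x)).trace := by
        have h6 := heA x (hhA x hx)
        calc (e * (x * a * c (-1))).trace = (x * (e * (a * c (-1)))).trace := by
              congr 1
              calc e * (x * a * c (-1)) = (e * x) * (a * c (-1)) := by simp only [mul_assoc]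
                _ = _ := by rw [h6]; simp only [mul_assoc]
          _ = ((e * (a * c (-1))) * x).trace := Matrix.trace_mul_comm _ _
          _ = _ := by congr 1; simp only [mul_assoc]
      have e6 : (e * ((c (-1) * x - x * c (-1)) * a)).trace =
          (e * (a * c (-1) * x)).trace - (e * (a * x * c (-1))).trace := by
        have h6 := heA a ha
        have e7 : (e * ((c (-1) * x - x * c (-1)) * a)) =
            (e * (c (-1) * x)) * a - (e * (x * c (-1))) * a := by noncomm_ring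
        have e9 : ∀ w, a * (e * w) = e * (a * w) := fun w => by
          rw [← mul_assoc, ← h6, mul_assoc]
        rw [e7, Matrix.trace_sub, Matrix.trace_mul_comm _ a, Matrix.trace_mul_comm _ a,
          e9, e9]
        simp only [mul_assoc]
      rw [e4, Matrix.trace_sub, Matrix.trace_sub, e5] at h5
      rw [e6] at h4
      have h7 : (e * (Z * c (-1))).trace = 0 := by linarith
      rw [h7, mul_zero]
    · intro j _ hj
      rw [sh_trace, if_neg (fun h => hj (eq_neg_of_add_eq_zero_right h))]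
    · intro h; exact absurd (Finset.mem_univ _) h
  obtain ⟨l', hl', hl2⟩ := hB S τ hτ κ _ comb adj gr _ (hshb x hx) _ (hshb Z hZ) s hs
  obtain ⟨l'', hl3, rfl⟩ := hback l' hl'
  rw [hh'] at hl3
  obtain ⟨l, hl, hl4⟩ := com_sh h κ _ hl3
  rw [hdeg0] at hl4
  refine ⟨l, hl, ?_⟩
  have hlx : l * x - x * l ∈ h := by
    apply hcom
    have h1 : x * l - l * x ∈ com h (κ + 1) := Submodule.subset_span ⟨x, hx, l, hl, rfl⟩
    have h2 := Submodule.neg_mem _ h1
    rwa [neg_sub] at h2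
  have hy : sh 1 (Z - (l * x - x * l)) ∈ A' := hsh _ (h.sub_mem hZ hlx)
  refine rad_key h A hA A' hA'2 e hee heA'2 1 _ hy ?_
  have h8 : q ⟨sh 1 (Z - (l * x - x * l)), hy⟩ = 0 := by
    have e8 : (⟨sh 1 (Z - (l * x - x * l)), hy⟩ : A') = ⟨sh 1 Z, hsh Z hZ⟩ -
        (l'' * ⟨sh 1 x, hsh x hx⟩ - ⟨sh 1 x, hsh x hx⟩ * l'') := by
      refine Subtype.ext ?_
      change sh 1 (Z - (l * x - x * l)) = sh 1 Z -
        ((l'' : Matrix (ZMod (κ + 1) × n) (ZMod (κ + 1) × n) ℚ) * sh 1 x -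
          sh 1 x * (l'' : Matrix (ZMod (κ + 1) × n) (ZMod (κ + 1) × n) ℚ))
      rw [hl4, sh_mul, sh_mul, map_sub, map_sub, zero_add, add_zero]
    rw [e8, map_sub, map_sub, map_mul, map_mul, hl2]
    exact sub_self _
  intro b hb
  rw [← he']
  exact hq0 _ h8 b hb

end Pool.Agent.Helper69K1.GrU
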