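import Pool.Agent.Helper69K1.GrU.Stm
import Pool.Agent.Helper69K1.Gr.G

/-!
# Local maximality decides singularity
-/

namespace Pool.Agent.Helper69K1.GrU

open Module Pool.Agent.Helper69K1 Pool.Agent.Helper69K1.Gr

theorem t_GU (hC : S_COM) (hN : S_NU) (hD : S_D) (hE : S_E) : S_GU := by
  intro n _ _ κ B hB x hx E hfin m z hz hspan w hw hst hrk hdet Y hY
  obtain ⟨hh, hdec⟩ := hD n κ B hB x hx E hfin
  obtain ⟨e, heA, hee, he0, he1, he2, -⟩ := hE n x hdet
  -- the element `x` lies in the null component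
  have hne : Nonempty n := by
    by_contra hne
    rw [not_nonempty_iff] at hne
    rw [Matrix.det_isEmpty] at hdet
    exact one_ne_zero hdet
  have hE0 : 0 < E := by
    refine lt_of_lt_of_le ?_ hfin
    rw [Module.finrank_matrix]
    simp only [finrank_self, mul_one]
    exact Nat.mul_pos Fintype.card_pos Fintype.card_pos
  have hxS : x ∈ nullC B x E := by
    refine ⟨hx, LinearMap.mem_ker.2 ?_⟩
    rw [← Nat.sub_add_cancel hE0, pow_add, pow_one, Module.End.mul_apply, adR_apply, sub_self,
      map_zero]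
  have hcom : ∀ a ∈ nullC B x E, e * a = a * e := fun a ha => he1 E a (LinearMap.mem_ker.1 ha.2)
  obtain ⟨T, hTh, hwT, hTn, hTd⟩ := hN n κ (nullC B x E) hh e
    (Algebra.adjoin_mono (Set.singleton_subset_iff.2 hxS) heA) hee hcom m z hz hspan w hw
    (fun i t ht => he2 E _ (LinearMap.mem_ker.1
      ((nullC B x E).add_mem hw ((nullC B x E).smul_mem _ (hz i))).2) (hst i t ht)) hrk
  have hTs : ∀ s ∈ T, s.det = 0 := fun s hs =>
    sing_of_nil hee he0 (hcom s (hTh hs)) (hTn s hs)
  have hhs : ∀ s ∈ nullC B x E, s.det = 0 := fun s hs =>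
    slice (B := nullC B x E) (S := T) (k := normB (nullC B x E)) (x := w) hTh
      (fun M hM Y hY => hM Y hY)
      (fun Y hY => by
        obtain ⟨s, hs, l, hl, h1⟩ := hTd Y hY
        exact ⟨s, hs, l, com_le_normB hC hh hl, h1⟩) hwT hTs hs
  exact slice (B := B) (S := nullC B x E) (k := normB B) (x := x) inf_le_left
    (fun M hM Y hY => hM Y hY) hdec hxS hhs hY

end Pool.Agent.Helper69K1.GrU
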