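import Pool.Agent.Helper69K1.GrU.Stm
import Pool.Agent.Helper56Gr.N

/-! Piece NU (helper69): the nil stage without a grading. -/

set_option autoImplicit false

namespace Pool.Agent.Helper69K1.GrU

open Module Pool.Agent.Helper69K1 Pool.Agent.Helper69K1.Gr Pool.Agent.Helper56Gr

theorem t_NU (_ : S_COM) (hA' : S_A) (hR : S_R) (hM : S_M) (hBU : S_BU) : S_NU := by
  intro n _ _ κ h hcom e he hee heh m z hz hzs w hw hnil hrk
  obtain ⟨A, hA⟩ : ∃ A : Subalgebra ℚ (Matrix n n ℚ),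
    A = Algebra.adjoin ℚ (h : Set (Matrix n n ℚ)) := ⟨_, rfl⟩
  rw [← hA] at he hrk
  have hhA : ∀ a ∈ h, a ∈ A := fun a ha => by rw [hA]; exact Algebra.subset_adjoin ha
  have heA : ∀ a ∈ A, e * a = a * e := by
    intro a ha
    rw [hA] at ha
    induction ha using Algebra.adjoin_induction with
    | mem x hx => exact heh x hx
    | algebraMap r => exact (Algebra.commutes r e).symm
    | add x y _ _ hx hy => rw [mul_add, add_mul, hx, hy]
    | mul x y _ _ hx hy => rw [← mul_assoc, hx, mul_assoc, hy, mul_assoc]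
  obtain ⟨S, iR, iA, iF, τ, q, hq, hτ, htr⟩ := hM n A e he hee heA
  have hqe : q ⟨e, he⟩ = 1 := by
    refine sub_eq_zero.1 (hτ.nondeg _ fun b => ?_)
    obtain ⟨b', rfl⟩ := hq b
    rw [sub_mul, one_mul, ← map_mul, map_sub, htr, htr]
    change (e * (e * (b' : Matrix n n ℚ))).trace - _ = 0
    rw [← mul_assoc, hee, sub_self]
  -- the point
  obtain ⟨xb, hxb⟩ : ∃ xb : S, xb = q ⟨w, hhA w hw⟩ := ⟨_, rfl⟩
  have nil : ∀ (i : Fin m) (t : ℚ), IsNilpotent (xb + t • q ⟨z i, hhA _ (hz i)⟩) := by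
    intro i t
    have h1 := line_nil (e * w) (e * z i) (fun r hr => by
      have h2 := hnil i r hr
      rwa [mul_add, mul_smul_comm] at h2) t
    obtain ⟨k, hk⟩ := h1
    have h2 : ((⟨e, he⟩ : A) * (⟨w, hhA w hw⟩ + t • ⟨z i, hhA _ (hz i)⟩)) ^ k = 0 := by
      refine Subtype.ext ?_
      change (e * (w + t • z i)) ^ k = 0
      rw [mul_add, mul_smul_comm]
      exact hk
    refine ⟨k, ?_⟩
    have h3 := congrArg q h2
    rw [map_pow, map_mul, hqe, one_mul, map_add, map_smul, map_zero, ← hxb] at h3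
    exact h3
  have hs : ∀ i : Fin m, ∃ s, q ⟨z i, hhA _ (hz i)⟩ = s * xb - xb * s := by
    intro i
    refine hA' S τ hτ xb _ (nil i) ?_
    rw [hxb]
    exact ext_q hR A e he hee heA S τ q hq hτ htr hqe w (z i) (hhA w hw) (hhA _ (hz i)) (hrk i)
  choose s hs using hs
  have hall : ∀ (a : Matrix n n ℚ) (ha : a ∈ h), ∃ r, q ⟨a, hhA a ha⟩ = r * xb - xb * r := by
    intro a ha
    obtain ⟨c, hc⟩ := (Submodule.mem_span_range_iff_exists_fun ℚ).1 (hzs ha)
    have h1 : (⟨a, hhA a ha⟩ : A) = ∑ i, c i • (⟨z i, hhA _ (hz i)⟩ : A) := by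
      refine Subtype.ext ?_
      rw [AddSubmonoidClass.coe_finsetSum]
      exact hc.symm
    refine ⟨∑ i, c i • s i, ?_⟩
    rw [h1, map_sum, Finset.sum_mul, Finset.mul_sum, ← Finset.sum_sub_distrib]
    refine Finset.sum_congr rfl fun i _ => ?_
    rw [map_smul, hs, smul_mul_assoc, mul_smul_comm, ← smul_sub]
  have xnil : IsNilpotent xb := by
    by_cases hm : m = 0
    · subst hm
      have h1 : w = 0 := by
        have h2 := hzs hw
        rw [Set.range_eq_empty, Submodule.span_empty, Submodule.mem_bot] at h2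
        exact h2
      refine ⟨1, ?_⟩
      rw [pow_one, hxb]
      have h2 : (⟨w, hhA w hw⟩ : A) = 0 := Subtype.ext h1
      rw [h2, map_zero]
    · have h1 := nil ⟨0, Nat.pos_of_ne_zero hm⟩ 0
      rwa [zero_smul, add_zero] at h1
  -- the space `T`
  refine ⟨{ carrier := {a | ∃ (ha : a ∈ h) (c : ℚ), q ⟨a, hhA a ha⟩ = c • xb}
            add_mem' := ?_
            zero_mem' := ?_
            smul_mem' := ?_ }, ?_, ?_, ?_, ?_⟩
  · rintro a b ⟨ha, c, hc⟩ ⟨hb', d, hd⟩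
    refine ⟨h.add_mem ha hb', c + d, ?_⟩
    rw [add_smul, ← hc, ← hd, ← map_add]
    rfl
  · refine ⟨h.zero_mem, 0, ?_⟩
    rw [zero_smul]
    exact map_zero q
  · rintro r a ⟨ha, c, hc⟩
    refine ⟨h.smul_mem r ha, r * c, ?_⟩
    rw [mul_smul, ← hc, ← map_smul]
    rfl
  · rintro a ⟨ha, -⟩
    exact ha
  · exact ⟨hw, 1, by rw [one_smul, hxb]⟩
  · rintro a ⟨ha, c, hc⟩
    refine nil_of_tr _ fun k hk => ?_
    have h1 : IsNilpotent (q ⟨a, hhA a ha⟩ ^ k) := by
      rw [hc]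
      have h2 : IsNilpotent (c • xb) := xnil.smul c
      exact h2.pow_of_pos hk.ne'
    have h2 := hτ.nil _ h1
    rw [← map_pow, htr] at h2
    have h3 : (e * a) ^ k = e * a ^ k := by
      have h4 : Commute e a := heA a (hhA a ha)
      rw [h4.mul_pow]
      congr 1
      have h5 : IsIdempotentElem e := hee
      exact h5.pow_eq (by omega)
    rw [h3]
    exact h2
  · intro Y hY
    obtain ⟨r, hr⟩ := hall Y hY
    obtain ⟨r', hr'⟩ := hq r
    obtain ⟨l, hl, hl2⟩ := hBU n κ h hcom A hA e hee heh w hw Y hY ⟨r', r'.2, fun b hb => by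
      have h1 : q ((⟨Y, hhA Y hY⟩ - (r' * ⟨w, hhA w hw⟩ - ⟨w, hhA w hw⟩ * r')) * ⟨b, hb⟩) = 0 := by
        rw [map_mul, map_sub, map_sub, map_mul, map_mul, hr', hr, ← hxb, sub_self, zero_mul]
      have h2 := htr ((⟨Y, hhA Y hY⟩ - (r' * ⟨w, hhA w hw⟩ - ⟨w, hhA w hw⟩ * r')) * ⟨b, hb⟩)
      rw [h1, map_zero] at h2
      exact h2.symm⟩
    have hlw : l * w - w * l ∈ h := by
      apply hcom
      have h1 : w * l - l * w ∈ com h (κ + 1) := Submodule.subset_span ⟨w, hw, l, hl, rfl⟩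
      have h2 := Submodule.neg_mem _ h1
      rwa [neg_sub] at h2
    refine ⟨Y - (l * w - w * l), ⟨h.sub_mem hY hlw, 0, ?_⟩, l, hl, by abel⟩
    rw [zero_smul]
    refine hτ.nondeg _ fun b => ?_
    obtain ⟨b', rfl⟩ := hq b
    rw [← map_mul, htr]
    exact hl2 b' b'.2

end Pool.Agent.Helper69K1.GrU
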