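import Pool.Agent.Helper69K1.Gr.Stm

/-!
# Spaces closed under iterated commutators of any length: statements of the pieces
-/

namespace Pool.Agent.Helper69K1.GrU

open Module Pool.Agent.Helper69K1 Pool.Agent.Helper69K1.Gr

/-- BU: piece B for the quotient of a matrix algebra by the radical of its trace form, without a
grading. -/
def S_BU : Prop := ∀ (n : Type) [Fintype n] [DecidableEq n] (κ : ℕ)
  (h : Submodule ℚ (Matrix n n ℚ)), com h (κ + 1) ≤ h →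
  ∀ A : Subalgebra ℚ (Matrix n n ℚ), A = Algebra.adjoin ℚ (h : Set (Matrix n n ℚ)) →
  ∀ e : Matrix n n ℚ, e * e = e → (∀ a ∈ h, e * a = a * e) →
  ∀ x ∈ h, ∀ Z ∈ h, (∃ a ∈ A, ∀ b ∈ A, (e * ((Z - (a * x - x * a)) * b)).trace = 0) →
  ∃ l ∈ com h κ, ∀ b ∈ A, (e * ((Z - (l * x - x * l)) * b)).trace = 0

/-- NU: the nil stage without a grading. -/
def S_NU : Prop := ∀ (n : Type) [Fintype n] [DecidableEq n] (κ : ℕ)
  (h : Submodule ℚ (Matrix n n ℚ)), com h (κ + 1) ≤ h →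
  ∀ e ∈ Algebra.adjoin ℚ (h : Set (Matrix n n ℚ)), e * e = e → (∀ a ∈ h, e * a = a * e) →
  ∀ (m : ℕ) (z : Fin m → Matrix n n ℚ), (∀ i, z i ∈ h) →
  h ≤ Submodule.span ℚ (Set.range z) → ∀ w ∈ h,
  (∀ i (t : ℕ), t ≤ Fintype.card n → IsNilpotent (e * (w + (t : ℚ) • z i))) →
  (∀ i (t : ℕ), t ≤ 2 * Fintype.card n ^ 2 + 3 →
    rkA (Algebra.adjoin ℚ (h : Set (Matrix n n ℚ))).toSubmodule (w + (t : ℚ) • z i) ≤
      rkA (Algebra.adjoin ℚ (h : Set (Matrix n n ℚ))).toSubmodule w) →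
  ∃ T : Submodule ℚ (Matrix n n ℚ), T ≤ h ∧ w ∈ T ∧ (∀ s ∈ T, IsNilpotent (e * s)) ∧
    ∀ Y ∈ h, ∃ s ∈ T, ∃ l ∈ com h κ, Y = s + (l * w - w * l)

/-- GU: local maximality decides singularity. -/
def S_GU : Prop := ∀ (n : Type) [Fintype n] [DecidableEq n] (κ : ℕ)
  (B : Submodule ℚ (Matrix n n ℚ)),
  com B (κ + 1) ≤ B → ∀ x ∈ B, ∀ E : ℕ, finrank ℚ (Matrix n n ℚ) ≤ E →
  ∀ (m : ℕ) (z : Fin m → Matrix n n ℚ), (∀ i, z i ∈ nullC B x E) →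
  nullC B x E ≤ Submodule.span ℚ (Set.range z) → ∀ w ∈ nullC B x E,
  (∀ i (t : ℕ), t ≤ Fintype.card n → ∀ s : ℚ, srk (x + s • (w + (t : ℚ) • z i)) ≤ srk x) →
  (∀ i (t : ℕ), t ≤ 2 * Fintype.card n ^ 2 + 3 →
    rkA (Algebra.adjoin ℚ (nullC B x E : Set (Matrix n n ℚ))).toSubmodule (w + (t : ℚ) • z i) ≤
      rkA (Algebra.adjoin ℚ (nullC B x E : Set (Matrix n n ℚ))).toSubmodule w) →
  x.det = 0 → ∀ Y ∈ B, Y.det = 0

end Pool.Agent.Helper69K1.GrU
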